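import Pool.Agent.Y470.SM.HYP

/-!
# Geodesics of the quotient near lines (helper470, for helper33)
-/

set_option autoImplicit false

namespace Pool.Agent.Y470.SM

open Pool.Agent.TH54.BU Pool.Agent.Y33.SM

theorem tA2 (h1 : S_MIN) (h2 : S_OV) : S_A2 := by
  intro G _ w κ n F L X M hM hc w' hw' h' hstr E
  refine ⟨κ * (5 * n + 2 * (E + 1100)), ?_⟩
  rintro γ l ⟨-, hγl⟩ - hl ⟨g, p, q, hp, hq⟩
  have hκ1 : 1 ≤ κ := by
    have := hc.hκ
    omega
  have hn := hc.hn
  set p1 := γ 0 with hp1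
  set p2 := γ l with hp2
  -- minimal lifts
  obtain ⟨e1, he1, hl1⟩ := hw'.lift ((p1 : G ⧸ M)⁻¹ * (g * (h' : G ⧸ M) ^ p))
  obtain ⟨e2, he2, hl2⟩ := hw'.lift ((p2 : G ⧸ M)⁻¹ * (g * (h' : G ⧸ M) ^ q))
  have hE1 : w.len e1 ≤ E := hl1.trans_le hp
  have hE2 : w.len e2 ≤ E := hl2.trans_le hq
  have hmin : ∀ e : G, ∀ x : G ⧸ M, (e : G ⧸ M) = x → w.len e = w'.len x →
      ∀ (i : L.ι) (u : G), 2 * |L.s i u 1 e| ≤ (n : ℤ) + 20000 := by
    intro e x hx hlx i u
    have := h1 G w κ n F L X M hc 0 e (by norm_num) (by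
      intro m hm
      have h3 := hw'.le (m * e)
      rw [GH.qo_coe_mul M hm e, hx] at h3
      omega) i u
    push_cast at this
    linarith
  have m1 := hmin e1 _ he1 hl1
  have m2 := hmin e2 _ he2 hl2
  -- the points on the line
  have hz : ((p1 * e1 * h' ^ (q - p) : G) : G ⧸ M) = ((p2 * e2 : G) : G ⧸ M) := by
    show (p1 : G ⧸ M) * (e1 : G ⧸ M) * (h' : G ⧸ M) ^ (q - p) = (p2 : G ⧸ M) * (e2 : G ⧸ M)
    rw [he1, he2, mul_inv_cancel_left, mul_inv_cancel_left, mul_assoc, ← zpow_add]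
    congr 2
    ring
  obtain ⟨m, hm, hmz⟩ := GH.qo_of_coe_eq M hz
  by_cases hm1 : m = 1
  · left
    rw [hm1, one_mul] at hmz
    refine ⟨p1 * e1 * h' ^ (-p), p, q, ?_, ?_⟩
    · have : p1 * e1 * h' ^ (-p) * h' ^ p = p1 * e1 := by
        rw [mul_assoc, ← zpow_add, neg_add_cancel, zpow_zero, mul_one]
      rw [this]
      unfold GH.d
      rw [inv_mul_cancel_left]
      exact hE1
    · have : p1 * e1 * h' ^ (-p) * h' ^ q = p2 * e2 := by
        rw [hmz, mul_assoc (p1 * e1), ← zpow_add]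
        congr 2
        ring
      rw [this]
      unfold GH.d
      rw [inv_mul_cancel_left]
      exact hE2
  · right
    obtain ⟨i, u, hiu⟩ := hc.fil.gr m hm hm1 (p1 * e1 * h' ^ (q - p))
    rw [← hmz] at hiu
    have hthr : L.thr = 472408 := rfl
    rw [hthr] at hiu
    refine ⟨i, u, ?_⟩
    by_contra hcon
    push Not at hcon
    have a1 := L.wf_s_add i u (p1 * e1 * h' ^ (q - p)) (p1 * e1) (p2 * e2)
    have a2 := L.wf_s_add i u (p1 * e1) p1 (p2 * e2)
    have a3 := L.wf_s_add i u p1 p2 (p2 * e2)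
    -- the first part
    have b1 : |L.s i u (p1 * e1 * h' ^ (q - p)) (p1 * e1)| ≤ 468006 := by
      have h3 := h2 G w κ n F L X M hc h' hstr i u (p1 * e1) (q - p) 0
      rw [zpow_zero, mul_one] at h3
      have h4 := L.qo_lin i (L.s i u (p1 * e1 * h' ^ (q - p)) (p1 * e1))
      have h5 : (L.D i u (p1 * e1 * h' ^ (q - p)) (p1 * e1) : ℤ) ≤ 234003 := by exact_mod_cast h3
      unfold LS.D at h5
      push_cast at h4
      linarith
    -- the second part
    have s1 : L.s i u (p1 * e1) p1 = - L.s i (p1⁻¹ * u) 1 e1 := by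
      rw [← L.wf_s_symm, ← L.wf_s_mul i p1 (p1⁻¹ * u) e1 1]
      rw [mul_inv_cancel_left, mul_one]
    have b2 : 2 * |L.s i u (p1 * e1) p1| ≤ (n : ℤ) + 20000 := by
      rw [s1, abs_neg]
      exact m1 i _
    have s2 : L.s i u p2 (p2 * e2) = L.s i (p2⁻¹ * u) 1 e2 := by
      rw [← L.wf_s_mul i p2 (p2⁻¹ * u) 1 e2]
      rw [mul_inv_cancel_left, mul_one]
    have b3 : 2 * |L.s i u p2 (p2 * e2)| ≤ (n : ℤ) + 20000 := by
      rw [s2]
      exact m2 i _
    have hn' : (10 : ℤ) ^ 12 ≤ n := by exact_mod_cast hn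
    -- both parts are long
    have tri : |L.s i u (p1 * e1 * h' ^ (q - p)) (p2 * e2)| ≤
        |L.s i u (p1 * e1 * h' ^ (q - p)) (p1 * e1)| + |L.s i u (p1 * e1) p1| +
          |L.s i u p1 p2| + |L.s i u p2 (p2 * e2)| := by
      rw [← a1, ← a2, ← a3]
      have t1 := abs_add_le (L.s i u (p1 * e1 * h' ^ (q - p)) (p1 * e1))
        (L.s i u (p1 * e1) p1 + (L.s i u p1 p2 + L.s i u p2 (p2 * e2)))
      have t2 := abs_add_le (L.s i u (p1 * e1) p1) (L.s i u p1 p2 + L.s i u p2 (p2 * e2))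
      have t3 := abs_add_le (L.s i u p1 p2) (L.s i u p2 (p2 * e2))
      linarith
    have c1 : (n : ℤ) ≤ 4 * |L.s i u (p1 * e1) p1| := by
      push_cast at hiu
      linarith
    have c2 : (n : ℤ) ≤ 4 * |L.s i u p2 (p2 * e2)| := by
      push_cast at hiu
      linarith
    -- the ends are close to the line
    have hFle : ∀ g, F.len g ≤ w.len g := by
      intro g
      rw [hc.resc, ← Nat.lt_succ_iff, Nat.div_lt_iff_lt_mul (by omega)]
      have h7 : (w.len g).succ * κ = w.len g * κ + κ := Nat.succ_mul _ _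
      have h8 : w.len g * 1 ≤ w.len g * κ := Nat.mul_le_mul_left _ hκ1
      omega
    have close : ∀ a b : G, (n : ℤ) ≤ 4 * |L.s i u a b| → F.d a b ≤ E →
        F.d a (L.pr i u a) ≤ E + 1100 ∧ F.d b (L.pr i u b) ≤ E + 1100 := by
      intro a b hab hE
      have h4 := L.qo_lin i (L.s i u a b)
      have h5 : 1100 < L.D i u a b := by
        by_contra h6
        push Not at h6
        have h7 : (F.len (L.x i ^ L.s i u a b) : ℤ) ≤ 1100 := by exact_mod_cast h6
        push_cast at h4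
        linarith
      have h8 := L.wf_proj_s i u a b h5
      omega
    have d1 : F.d (p1 * e1) p1 ≤ E := by
      rw [F.d_comm]
      unfold GH.d
      rw [inv_mul_cancel_left]
      exact (hFle e1).trans hE1
    have d2 : F.d p2 (p2 * e2) ≤ E := by
      unfold GH.d
      rw [inv_mul_cancel_left]
      exact (hFle e2).trans hE2
    have k1 := (close _ _ c1 d1).2
    have k2 := (close _ _ c2 d2).1
    have k3 := L.cl_d_le i u p1 p2
    -- the upper bound of the displacement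
    have k4 : L.D i u p1 p2 ≤ (L.s i u p1 p2).natAbs * 5 := by
      unfold LS.D
      rw [L.wf_len_zpow]
      refine (len_zpow_nat F _ _).trans (Nat.mul_le_mul_left _ ?_)
      rw [hc.resc, ← Nat.lt_succ_iff, Nat.div_lt_iff_lt_mul (by omega)]
      have := hc.hi _ (hc.mem i)
      omega
    have k5 : 5 * n + 2 * (E + 1100) ≤ F.d p1 p2 := by
      unfold GH.d
      rw [hc.resc]
      have h9 : w.len (p1⁻¹ * p2) = l := hγl
      rw [h9, Nat.le_div_iff_mul_le (by omega), Nat.mul_comm]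
      omega
    have k6 : ((L.s i u p1 p2).natAbs : ℤ) = |L.s i u p1 p2| := Int.natCast_natAbs _
    omega

end Pool.Agent.Y470.SM
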