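import Pool.Agent.Y470.SM.ATwo
import Pool.Agent.TH54.BU.Local
import Pool.Agent.TH54.BU.Axial

/-!
# Geodesics running along relator lines are captured (helper470, for helper33)
-/

set_option autoImplicit false

namespace Pool.Agent.Y470.SM

open Pool.Agent.TH54.BU Pool.Agent.Y33.SM

section

variable {G : Type} [Group G]

/-- periodic paths exist -/
theorem exists_per (w : GH G) (x : G) (hx : 0 < w.len x) : ∃ ζ : ℤ → G, Per w x ζ := by
  obtain ⟨γ, g0, gn, gs⟩ := w.qo_geod (w.len x) 1 x (w.d_one x)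
  have hL : (0 : ℤ) < w.len x := by exact_mod_cast hx
  refine ⟨fun j => x ^ (j / (w.len x : ℤ)) * γ (j % (w.len x : ℤ)).toNat, ?_, ?_, ?_⟩
  · simp [g0]
  · intro j
    show x ^ ((j + w.len x) / (w.len x : ℤ)) * γ ((j + w.len x) % (w.len x : ℤ)).toNat =
      x * (x ^ (j / (w.len x : ℤ)) * γ (j % (w.len x : ℤ)).toNat)
    rw [Int.add_emod_right, Int.add_ediv_of_dvd_right (dvd_refl _), Int.ediv_self hL.ne',
      zpow_add_one, ← mul_assoc, ← zpow_one_add, add_comm, zpow_add_one]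
  · intro j
    show w.d (x ^ (j / (w.len x : ℤ)) * γ (j % (w.len x : ℤ)).toNat)
      (x ^ ((j + 1) / (w.len x : ℤ)) * γ ((j + 1) % (w.len x : ℤ)).toNat) ≤ 1
    have h0 := Int.emod_nonneg j hL.ne'
    have h1 := Int.emod_lt_of_pos j hL
    have h2 := Int.emod_add_mul_ediv j (w.len x : ℤ)
    set r := j % (w.len x : ℤ) with hr
    set k := j / (w.len x : ℤ) with hk
    by_cases h3 : r + 1 < w.len x
    · have e1 : (j + 1) / (w.len x : ℤ) = k := by
        rw [Int.ediv_eq_iff_of_pos hL]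
        constructor <;> nlinarith
      have e2 : (j + 1) % (w.len x : ℤ) = r + 1 := by
        have h4 := Int.emod_add_mul_ediv (j + 1) (w.len x : ℤ)
        rw [e1] at h4
        omega
      rw [e1, e2, w.d_mul, show (r + 1).toNat = r.toNat + 1 by omega]
      exact gs _ (by omega)
    · have h5 : r + 1 = w.len x := by omega
      have e1 : (j + 1) / (w.len x : ℤ) = k + 1 := by
        rw [Int.ediv_eq_iff_of_pos hL]
        constructor <;> nlinarith
      have e2 : (j + 1) % (w.len x : ℤ) = 0 := by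
        have h4 := Int.emod_add_mul_ediv (j + 1) (w.len x : ℤ)
        rw [e1] at h4
        have h6 : (w.len x : ℤ) * (k + 1) = w.len x * k + w.len x := by ring
        omega
      rw [e1, e2, zpow_add_one, mul_assoc, w.d_mul]
      show w.d (γ r.toNat) (x * γ 0) ≤ 1
      rw [g0, mul_one]
      have h7 := gs r.toNat (by omega)
      rw [show r.toNat + 1 = w.len x by omega, gn] at h7
      exact h7

theorem lemX (w : GH G) {A P Q R : G} {c e : ℕ} (h1 : w.d P R + w.d R Q ≤ w.d P Q + c)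
    (h2 : w.d A P + w.d P Q ≤ w.d A Q + e) (h3 : e + 2 * c + w.D < 2 * w.d P R) :
    w.d A R + w.d R Q ≤ w.d A Q + c + w.D := by
  have i1 := w.fpor P Q A R
  have t1 := w.d_tri A R Q
  have c1 := w.d_comm P A
  have c2 := w.d_comm Q R
  have c3 := w.d_comm Q A
  omega

theorem beta_core (w : GH G) {A B : G} {y : ℕ → G} {N κ : ℕ} (hκ : 1000 * (w.D + 1) ≤ κ)
    (hy : ∀ i j k, i ≤ j → j ≤ k → k ≤ N →
      w.d (y i) (y j) + w.d (y j) (y k) ≤ w.d (y i) (y k) + 2 * w.D)
    (hlong : ∀ i j, i + 10 ^ 4 ≤ j → j ≤ N → 1200 * κ ≤ w.d (y i) (y j))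
    (hAB : w.d A (y 0) + w.d (y 0) (y N) + w.d (y N) B ≤ w.d A B + 1101 * κ) :
    (∀ j, 10 ^ 4 ≤ j → j + 10 ^ 4 ≤ N → w.d A (y j) + w.d (y j) B ≤ w.d A B + 4 * w.D) ∧
    (∀ j, 10 ^ 4 ≤ j → j + 1 ≤ N →
      w.d A (y j) + w.d (y j) (y (j + 1)) ≤ w.d A (y (j + 1)) + 3 * w.D) := by
  have t1 := w.d_tri A (y N) B
  have t2 := w.d_tri A (y 0) (y N)
  constructor
  · intro j h1 h2
    have a1 := hlong 0 j (by omega) (by omega)
    have a2 := hlong j N (by omega) le_rfl
    have b := lemX w (A := A) (P := y 0) (Q := y N) (R := y j) (c := 2 * w.D) (e := 1101 * κ)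
      (hy 0 j N (by omega) (by omega) le_rfl) (by omega) (by omega)
    have c1 := w.d_comm (y N) (y j)
    have c2 := w.d_comm (y j) A
    have c3 := w.d_comm (y N) A
    have c4 := w.d_comm B (y N)
    have c5 := w.d_comm B A
    have c6 := w.d_comm B (y j)
    have b2 := lemX w (A := B) (P := y N) (Q := A) (R := y j) (c := 3 * w.D) (e := 1101 * κ)
      (by omega) (by omega) (by omega)
    omega
  · intro j h1 h2
    have a1 := hlong 0 j (by omega) (by omega)
    have a3 := hy 0 (j + 1) N (by omega) (by omega) le_rfl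
    have t3 := w.d_tri A (y (j + 1)) (y N)
    have b := lemX w (A := A) (P := y 0) (Q := y (j + 1)) (R := y j) (c := 2 * w.D)
      (e := 1101 * κ + 2 * w.D) (hy 0 j (j + 1) (by omega) (by omega) h2) (by omega) (by omega)
    omega

theorem near_vertex (w : GH G) {γ : ℕ → G} {l : ℕ} (hγ : w.Geod γ l) {R : G}
    (h : w.d (γ 0) R + w.d R (γ l) ≤ w.d (γ 0) (γ l) + 4 * w.D) :
    w.d (γ (min (w.d (γ 0) R) l)) R ≤ 9 * w.D := by
  have hg := Guess.geod_dist w.dm hγ.1 hγ.2
  set j := min (w.d (γ 0) R) l with hj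
  have h1 := hg 0 j (by omega) (by omega)
  have h2 := hg j l (by omega) le_rfl
  have h3 := hγ.2
  have h4 := w.nr (a := γ 0) (b := γ l) (x := γ j) (y := R) (c := 4 * w.D) (by omega) h
  omega

end

theorem tBETA : S_BETA := by
  intro G _ w _
  refine ⟨9 * w.D, 0, ?_⟩
  intro κ _ n F L X M hc γ l hγ i u hs
  have hκ := hc.hκ
  have hκ1 : 1 ≤ κ := by omega
  set x := L.x i with hx
  have hlo := hc.lo x (hc.mem i)
  have hhi := hc.hi x (hc.mem i)
  obtain ⟨hsup, -⟩ := w.sup_of_cmin (hc.cmin x (hc.mem i)) (by omega)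
  obtain ⟨ζ, hζ⟩ := exists_per w x (by omega)
  have hup : ∀ a b, w.d a b ≤ κ * F.d a b := by
    intro a b
    have := rescale_le hκ1 (w.d a b)
    unfold GH.d at this ⊢
    rwa [← hc.resc] at this
  have hdn : ∀ a b, κ * F.d a b ≤ w.d a b + κ - 1 := by
    intro a b
    have := rescale_ge (κ := κ) (w.d a b)
    unfold GH.d at this ⊢
    rwa [← hc.resc] at this
  -- long powers
  have hlp : ∀ m : ℕ, 10 ^ 4 ≤ m → 1200 * κ ≤ w.len (x ^ m) := by
    intro m hm
    have h1 := L.lin i m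
    have h2 := hdn 1 (x ^ m)
    rw [F.d_one, w.d_one] at h2
    have h3 : κ * 5000 ≤ κ * F.len (x ^ m) := by
      apply Nat.mul_le_mul_left
      rw [hx]
      omega
    omega
  -- the projections
  have hD : 1100 < L.D i u (γ 0) (γ l) := by
    have h4 := L.qo_lin i (L.s i u (γ 0) (γ l))
    by_contra h6
    push Not at h6
    have h7 : (F.len (L.x i ^ L.s i u (γ 0) (γ l)) : ℤ) ≤ 1100 := by exact_mod_cast h6
    push_cast at h4
    linarith
  have hpr := L.wf_proj_s i u (γ 0) (γ l) hD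
  set a := L.κ i (u⁻¹ * γ 0) with ha
  set b := L.κ i (u⁻¹ * γ l) with hb
  have hsab : L.s i u (γ 0) (γ l) = b - a := rfl
  have hPr0 : L.pr i u (γ 0) = u * x ^ a := rfl
  have hPrl : L.pr i u (γ l) = u * x ^ b := rfl
  have hDd : L.D i u (γ 0) (γ l) = F.d (u * x ^ a) (u * x ^ b) := by
    unfold LS.D
    rw [hsab, F.d_mul]
    unfold GH.d
    rw [← zpow_neg, ← zpow_add]
    congr 2
    ring
  rw [hPr0, hPrl, hDd] at hpr
  have hAB : w.d (γ 0) (u * x ^ a) + w.d (u * x ^ a) (u * x ^ b) + w.d (u * x ^ b) (γ l) ≤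
      w.d (γ 0) (γ l) + 1101 * κ := by
    have e1 := hup (γ 0) (u * x ^ a)
    have e2 := hup (u * x ^ a) (u * x ^ b)
    have e3 := hup (γ l) (u * x ^ b)
    have e4 := hdn (γ 0) (γ l)
    have e5 := w.d_comm (u * x ^ b) (γ l)
    have e6 := Nat.mul_le_mul_left κ hpr
    rw [Nat.mul_add, Nat.mul_add, Nat.mul_add] at e6
    omega
  rw [hsab] at hs
  -- the points of the line, from the first to the last
  have main : ∀ σ : ℤ, (σ = 1 ∨ σ = -1) → b - a = σ * (b - a).natAbs →
      ∃ j0 j1 j2 : ℕ, j0 ≤ j1 ∧ j1 ≤ j2 ∧ j2 ≤ l ∧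
        w.d (γ j0) (u * x ^ (a + σ * 10 ^ 4)) ≤ 9 * w.D ∧
        w.d (γ j1) (u * x ^ (a + σ * (10 ^ 4 + 1))) ≤ 9 * w.D ∧
        w.d (γ j2) (u * x ^ (a + σ * (10 ^ 4 + 2))) ≤ 9 * w.D := by
    intro σ hσ hab
    set N := (b - a).natAbs with hN
    have hN6 : 10 ^ 6 ≤ N := by
      have h1 : ((b - a).natAbs : ℤ) = |b - a| := Int.natCast_natAbs _
      rw [← hN] at h1
      omega
    have hdist : ∀ i j : ℕ, i ≤ j →
        w.d (u * x ^ (a + σ * (i : ℤ))) (u * x ^ (a + σ * (j : ℤ))) = w.len (x ^ (j - i)) := by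
      intro i j hij
      obtain ⟨k, rfl⟩ := Nat.exists_eq_add_of_le hij
      rw [Nat.add_sub_cancel_left, w.d_mul]
      unfold GH.d
      rw [← zpow_neg, ← zpow_add]
      have e : -(a + σ * (i : ℤ)) + (a + σ * ((i + k : ℕ) : ℤ)) = σ * k := by
        push_cast
        ring
      rw [e]
      rcases hσ with rfl | rfl
      · rw [one_mul, zpow_natCast]
      · rw [neg_one_mul, zpow_neg, zpow_natCast, w.len_inv]
    have core := beta_core w (A := γ 0) (B := γ l) (y := fun j : ℕ => u * x ^ (a + σ * (j : ℤ)))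
      (N := N) (κ := κ) hκ (by
        intro i j k hij hjk _
        beta_reduce
        rw [hdist i j hij, hdist j k hjk, hdist i k (hij.trans hjk)]
        have h1 := hsup (j - i) (k - j)
        rw [show j - i + (k - j) = k - i by omega] at h1
        exact h1) (by
        intro i j hij _
        beta_reduce
        rw [hdist i j (by omega)]
        exact hlp _ (by omega)) (by
        beta_reduce
        rw [← hab, show a + σ * ((0 : ℕ) : ℤ) = a by simp, show a + (b - a) = b by ring]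
        exact hAB)
    obtain ⟨k1, k2⟩ := core
    beta_reduce at k1 k2
    have f0 := k1 (10 ^ 4) le_rfl (by omega)
    have f1 := k1 (10 ^ 4 + 1) (by omega) (by omega)
    have f2 := k1 (10 ^ 4 + 2) (by omega) (by omega)
    have s0 := k2 (10 ^ 4) le_rfl (by omega)
    have s1 := k2 (10 ^ 4 + 1) (by omega) (by omega)
    rw [hdist (10 ^ 4) (10 ^ 4 + 1) (by omega), show 10 ^ 4 + 1 - 10 ^ 4 = 1 by omega, pow_one]
      at s0
    rw [hdist (10 ^ 4 + 1) (10 ^ 4 + 1 + 1) (by omega),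
      show 10 ^ 4 + 1 + 1 - (10 ^ 4 + 1) = 1 by omega, pow_one] at s1
    have v0 := near_vertex w hγ f0
    have v1 := near_vertex w hγ f1
    have v2 := near_vertex w hγ f2
    have e0 : a + σ * 10 ^ 4 = a + σ * ((10 ^ 4 : ℕ) : ℤ) := by push_cast; ring
    have e1 : a + σ * (10 ^ 4 + 1) = a + σ * ((10 ^ 4 + 1 : ℕ) : ℤ) := by push_cast; ring
    have e2 : a + σ * (10 ^ 4 + 2) = a + σ * ((10 ^ 4 + 2 : ℕ) : ℤ) := by push_cast; ring
    rw [show 10 ^ 4 + 1 + 1 = 10 ^ 4 + 2 by norm_num] at s1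
    rw [← e0] at v0 s0
    rw [← e1] at v1 s0 s1
    rw [← e2] at v2 s1
    exact ⟨min (w.d (γ 0) (u * x ^ (a + σ * 10 ^ 4))) l,
      min (w.d (γ 0) (u * x ^ (a + σ * (10 ^ 4 + 1)))) l,
      min (w.d (γ 0) (u * x ^ (a + σ * (10 ^ 4 + 2)))) l,
      by omega, by omega, by omega, v0, v1, v2⟩
  -- the values of the periodic path
  have z0 := hζ.zero
  have z1 : ζ (w.len x) = x := by
    have := hζ.per 0
    rw [zero_add, z0, mul_one] at this
    exact this
  have z2 : ζ (2 * w.len x) = x * x := by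
    have := hζ.per (w.len x)
    rw [z1, ← two_mul] at this
    exact this
  refine ⟨ζ, hζ, ?_⟩
  rcases le_total a b with hab | hab
  · obtain ⟨j0, j1, j2, h1, h2, h3, d0, d1, d2⟩ := main 1 (Or.inl rfl) (by omega)
    refine ⟨u * x ^ (a + 1 * 10 ^ 4), 0, w.len x, 2 * w.len x, j0, j1, j2, Or.inl ⟨h1, h2⟩,
      by omega, h3, by omega, by omega, by omega, ?_, ?_, ?_⟩
    · rw [z0, mul_one]
      exact d0
    · rw [z1, mul_assoc, ← zpow_add_one]
      convert d1 using 4
      ring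
    · rw [z2, mul_assoc, ← mul_assoc (x ^ _) x x, ← zpow_add_one, ← zpow_add_one]
      convert d2 using 4
      ring
  · obtain ⟨j0, j1, j2, h1, h2, h3, d0, d1, d2⟩ := main (-1) (Or.inr rfl) (by omega)
    refine ⟨u * x ^ (a + -1 * (10 ^ 4 + 2)), 0, w.len x, 2 * w.len x, j2, j1, j0,
      Or.inr ⟨h1, h2⟩, h3, by omega, by omega, by omega, by omega, ?_, ?_, ?_⟩
    · rw [z0, mul_one]
      exact d2
    · rw [z1, mul_assoc, ← zpow_add_one]
      convert d1 using 4
      ring
    · rw [z2, mul_assoc, ← mul_assoc (x ^ _) x x, ← zpow_add_one, ← zpow_add_one]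
      convert d0 using 4
      ring

end Pool.Agent.Y470.SM
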