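import Pool.Agent.Y470.SM.QIH
import Pool.Agent.TH54.BU.QuoE
import Pool.Agent.TH54.BU.Cone
import Pool.Agent.TH54.BU.Rescale

/-!
# The quotient length is hyperbolic (helper470, for helper33)
-/

set_option autoImplicit false

namespace Pool.Agent.Y470.SM

open Pool.Agent.TH54.BU Pool.Agent.Y33.SM

theorem len_zpow_nat {G : Type} [Group G] (w : GH G) (x : G) (b : ℕ) :
    w.len (x ^ b) ≤ b * w.len x := by
  induction b with
  | zero => rw [pow_zero, w.len_one]; exact Nat.zero_le _
  | succ b ih =>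
    rw [pow_succ]
    have h1 := w.len_mul (x ^ b) x
    have h2 : (b + 1) * w.len x = b * w.len x + w.len x := by ring
    omega

theorem tHYP : S_HYP := by
  obtain ⟨De, hDe⟩ := exists_cone 4 1100
  obtain ⟨Θ, hΘ⟩ := hDe 234003
  refine ⟨24 * (2 * (2 * 1100 + 234003 + 1)) + 2 * (2 * 1100 + 1) + 4 * (2 * Θ + 1), ?_⟩
  intro G _ w κ n F L X M hM hn hc
  obtain ⟨E, -, hE⟩ := hΘ G F 2 L hc.FD.le
  obtain ⟨Q, -, hQ1, hQ2⟩ := L.exists_quo hc.fil hE (by norm_num) hn
  have hκ1 : 1 ≤ κ := by
    have := hc.hκ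
    omega
  have hn1 : 1 ≤ n := by
    have := hc.hn
    omega
  set C0 := n * (5 * κ) + κ with hC0
  -- elements of length one
  have one : ∀ q : G ⧸ M, Q.len q ≤ 1 → w.qoLen M q ≤ C0 := by
    intro q hq
    obtain ⟨g, hg, hgl⟩ := hQ2 q
    rw [← hgl] at hq
    rcases (hE.le_one g).1 hq with h | ⟨i, k, h⟩
    · have h1 := w.qoLen_le M g
      rw [hg] at h1
      have h2 := rescale_le hκ1 (w.len g)
      rw [← hc.resc g] at h2
      have h3 : κ * F.len g ≤ κ * 1 := Nat.mul_le_mul_left κ h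
      omega
    · have hdm := Int.emod_add_mul_ediv k (n : ℤ)
      have hb0 : 0 ≤ k % (n : ℤ) := Int.emod_nonneg _ (by omega)
      have hbn : k % (n : ℤ) < n := Int.emod_lt_of_pos _ (by omega)
      obtain ⟨b, hb⟩ := Int.eq_ofNat_of_zero_le hb0
      have hrot := hc.fil.rot i 1 (k / n)
      have h1 : L.rt i 1 (n * (k / n)) = L.x i ^ ((n : ℤ) * (k / n)) := by
        unfold LS.rt
        group
      rw [h1] at hrot
      have h2 : g = L.x i ^ ((n : ℤ) * (k / n)) * L.x i ^ b := by
        rw [h, ← zpow_natCast, ← zpow_add]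
        congr 1
        rw [← hb]
        omega
      have h3 : ((L.x i ^ b : G) : G ⧸ M) = q := by
        rw [← hg, h2]
        exact (GH.qo_coe_mul M hrot _).symm
      have h4 := w.qoLen_le M (L.x i ^ b)
      rw [h3] at h4
      have h5 := len_zpow_nat w (L.x i) b
      have h6 := hc.hi _ (hc.mem i)
      have h7 : b * w.len (L.x i) ≤ n * (5 * κ) := Nat.mul_le_mul (by omega) h6
      omega
  have all : ∀ (m : ℕ) (q : G ⧸ M), Q.len q = m → w.qoLen M q ≤ C0 * m := by
    intro m
    induction m with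
    | zero =>
      intro q hq
      rw [Q.eq_one q hq, w.qoLen_one]
      exact Nat.zero_le _
    | succ m ih =>
      intro q hq
      obtain ⟨h, h1, h2⟩ := Q.step q 1 (by omega)
      have h3 := ih (h⁻¹ * q) (by omega)
      have h4 := one h h1.le
      have h5 := w.qoLen_mul M h (h⁻¹ * q)
      rw [mul_inv_cancel_left] at h5
      have h6 : C0 * (m + 1) = C0 * m + C0 := by ring
      omega
  have hle : ∀ q : G ⧸ M, Q.len q ≤ w.qoLen M q := by
    intro q
    obtain ⟨g, hg, hgl⟩ := w.qoLen_rep M q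
    have h1 := hQ1 g
    have h2 := hE.le g
    have h3 := hc.resc g
    have h4 : (w.len g + κ - 1) / κ ≤ w.len g := by
      rw [← Nat.lt_succ_iff, Nat.div_lt_iff_lt_mul (by omega)]
      have h5 : (w.len g).succ * 1 ≤ (w.len g).succ * κ := Nat.mul_le_mul_left _ hκ1
      rcases Nat.eq_zero_or_pos (w.len g) with h6 | h6
      · rw [h6]
        omega
      · have h7 : (w.len g).succ * κ = w.len g * κ + κ := Nat.succ_mul _ _
        have h8 : w.len g * 1 ≤ w.len g * κ := Nat.mul_le_mul_left _ hκ1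
        omega
    rw [hg] at h1
    omega
  have hdm : DM (fun u v : G ⧸ M => w.qoLen M (u⁻¹ * v)) := {
    self := fun u => by
      show w.qoLen M (u⁻¹ * u) = 0
      rw [inv_mul_cancel, w.qoLen_one]
    eq := fun u v h => by
      have h1 := w.qoLen_eq_one M _ h
      exact inv_mul_eq_one.1 h1
    comm := fun u v => by
      show w.qoLen M (u⁻¹ * v) = w.qoLen M (v⁻¹ * u)
      rw [← w.qoLen_inv]
      congr 1
      group
    tri := fun u v x => by
      show w.qoLen M (u⁻¹ * x) ≤ w.qoLen M (u⁻¹ * v) + w.qoLen M (v⁻¹ * x)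
      have h1 := w.qoLen_mul M (u⁻¹ * v) (v⁻¹ * x)
      rwa [show u⁻¹ * v * (v⁻¹ * x) = u⁻¹ * x by group] at h1
    btw := fun u v k hk => by
      obtain ⟨h, h1, h2⟩ := w.qoLen_step M (u⁻¹ * v) k hk
      refine ⟨u * h, ?_, ?_⟩
      · show w.qoLen M (u⁻¹ * (u * h)) = k
        rw [inv_mul_cancel_left, h1]
      · show w.qoLen M ((u * h)⁻¹ * v) + k = w.qoLen M (u⁻¹ * v)
        rw [← h2]
        congr 2
        group }
  obtain ⟨D', hD'⟩ := t (G ⧸ M) Q.d _ Q.dm hdm C0 Q.D (fun u v => hle (u⁻¹ * v))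
    (fun u v => all _ (u⁻¹ * v) rfl) Q.four
  exact ⟨{ len := w.qoLen M
           D := D'
           len_one := w.qoLen_one M
           eq_one := w.qoLen_eq_one M
           len_inv := w.qoLen_inv M
           len_mul := w.qoLen_mul M
           fp' := fun u v x z => hD' u v x z
           step := w.qoLen_step M }, fun g => w.qoLen_le M g, fun q => w.qoLen_rep M q⟩

end Pool.Agent.Y470.SM
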