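import Pool.Agent.Y33.SM.Stm
import Pool.Agent.TH54.BU.Guess

/-!
# Hyperbolicity of bi-Lipschitz equivalent discrete geodesic metrics (helper470, for helper33)
-/

set_option autoImplicit false

namespace Pool.Agent.Y470.SM

open Pool.Agent.TH54.BU Pool.Agent.Y33.SM

/-- dividing a discrete geodesic metric by `C` and rounding up -/
theorem dm_scale {V : Type} {e : V → V → ℕ} (he : DM e) {C : ℕ} (hC : 0 < C) :
    DM (fun u v => (e u v + C - 1) / C) where
  self u := by
    show (e u u + C - 1) / C = 0
    rw [he.self]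
    exact Nat.div_eq_of_lt (by omega)
  eq u v h := by
    have h0 : (e u v + C - 1) / C = 0 := h
    rw [Nat.div_eq_zero_iff] at h0
    exact he.eq _ _ (by omega)
  comm u v := by
    show (e u v + C - 1) / C = (e v u + C - 1) / C
    rw [he.comm]
  tri u v w := by
    show (e u w + C - 1) / C ≤ (e u v + C - 1) / C + (e v w + C - 1) / C
    have h1 := he.tri u v w
    have h2 := Nat.lt_div_mul_add hC (a := e u v + C - 1)
    have h3 := Nat.lt_div_mul_add hC (a := e v w + C - 1)
    have h4 := Nat.div_mul_le_self (e u w + C - 1) C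
    set x := (e u v + C - 1) / C
    set y := (e v w + C - 1) / C
    set z := (e u w + C - 1) / C
    by_contra hcon
    push Not at hcon
    have h5 : (x + y + 1) * C ≤ z * C := Nat.mul_le_mul_right C hcon
    have h6 : (x + y + 1) * C = x * C + y * C + C := by ring
    omega
  btw u v k hk := by
    have hk' : k ≤ (e u v + C - 1) / C := hk
    show ∃ p, (e u p + C - 1) / C = k ∧ (e p v + C - 1) / C + k = (e u v + C - 1) / C
    by_cases h : k * C ≤ e u v
    · obtain ⟨p, hp1, hp2⟩ := he.btw u v (k * C) h
      refine ⟨p, ?_, ?_⟩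
      · rw [hp1, Nat.div_eq_iff hC]
        omega
      · have h1 : e u v + C - 1 = (e p v + C - 1) + k * C := by omega
        rw [h1, Nat.add_mul_div_right _ _ hC]
    · have h1 : (e u v + C - 1) / C = k := by
        apply le_antisymm _ hk'
        rw [← Nat.lt_succ_iff, Nat.div_lt_iff_lt_mul hC, Nat.succ_mul]
        omega
      refine ⟨v, h1, ?_⟩
      rw [he.self, h1]
      rw [show (0 + C - 1) / C = 0 from Nat.div_eq_of_lt (by omega)]
      omega

theorem t : S_QIH := by
  intro V d e hd he C' D hde hed h4
  set C := C' + 1 with hCdef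
  have hC : 0 < C := by omega
  obtain ⟨R, hR⟩ := guess D C
  have hs := dm_scale he hC
  have hle : ∀ u v, (e u v + C - 1) / C ≤ d u v := by
    intro u v
    rw [← Nat.lt_succ_iff, Nat.div_lt_iff_lt_mul hC, Nat.succ_mul]
    have h1 := hed u v
    have h2 : d u v * C = C' * d u v + d u v := by
      rw [hCdef]
      ring
    omega
  have hA : ∀ p q r, (e p q + C - 1) / C ≤ 1 → d p r + d r q = d p q →
      (e p r + C - 1) / C ≤ C := by
    intro p q r h1 h2
    have h3 := hle p r
    rw [← Nat.lt_succ_iff, Nat.div_lt_iff_lt_mul hC] at h1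
    have h5 := hde p q
    omega
  obtain ⟨-, -, h⟩ := hR V d _ hd hs hle h4 hA
  refine ⟨C * R + 2 * C, ?_⟩
  intro u v w z
  have h1 := h u v w z
  simp only at h1
  have up : ∀ a b, e a b ≤ ((e a b + C - 1) / C) * C := by
    intro a b
    have := Nat.lt_div_mul_add hC (a := e a b + C - 1)
    omega
  have dn : ∀ a b, ((e a b + C - 1) / C) * C ≤ e a b + C := by
    intro a b
    have := Nat.div_mul_le_self (e a b + C - 1) C
    omega
  have a1 := up u v
  have a2 := up w z
  have b1 := dn u w
  have b2 := dn v z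
  have b3 := dn u z
  have b4 := dn v w
  set x1 := (e u v + C - 1) / C
  set x2 := (e w z + C - 1) / C
  set y1 := (e u w + C - 1) / C
  set y2 := (e v z + C - 1) / C
  set y3 := (e u z + C - 1) / C
  set y4 := (e v w + C - 1) / C
  have k0 : R * C = C * R := Nat.mul_comm _ _
  rcases le_total (y1 + y2) (y3 + y4) with hm | hm
  · rw [max_eq_right hm] at h1
    have h2 : (x1 + x2) * C ≤ (y3 + y4 + R) * C := Nat.mul_le_mul_right C h1
    rw [Nat.add_mul, Nat.add_mul, Nat.add_mul] at h2
    have h3 := le_max_right (e u w + e v z) (e u z + e v w)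
    omega
  · rw [max_eq_left hm] at h1
    have h2 : (x1 + x2) * C ≤ (y1 + y2 + R) * C := Nat.mul_le_mul_right C h1
    rw [Nat.add_mul, Nat.add_mul, Nat.add_mul] at h2
    have h3 := le_max_left (e u w + e v z) (e u z + e v w)
    omega

end Pool.Agent.Y470.SM
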